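import Mathlib
import Pool.Agent.H.MP_e3a8c8_an.E

set_option autoImplicit false
open scoped ComplexConjugate ComplexOrder
open Matrix Filter Topology Pool.Agent.H.MP_e3a8c8_an

namespace Pool.Agent.H.MP_72b8ed_an

variable {X : Type*}

theorem psd_lim {M : ℕ → X → X → ℂ} {A : X → X → ℂ} (h : ∀ n, (of (M n)).PosSemidef)
    (hl : ∀ x y, Tendsto (fun n => M n x y) atTop (𝓝 (A x y))) : (of A).PosSemidef :=
  psd_closed.mem_of_tendsto (tendsto_pi_nhds.2 fun x => tendsto_pi_nhds.2 fun y => hl x y)
    (Eventually.of_forall h)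

theorem psd_one : (of fun _ _ : X => (1 : ℂ)).PosSemidef := by
  convert dyad_psd (fun _ : X => (1 : ℂ)) using 1
  ext x y
  simp [dyad]

theorem psd_pow {M : Matrix X X ℂ} (h : M.PosSemidef) (n : ℕ) :
    (of fun x y => M x y ^ n).PosSemidef := by
  induction n with
  | zero => simpa using psd_one
  | succ n ih =>
    have e : (of fun x y => M x y ^ (n + 1)) = (of fun x y => M x y ^ n) ⊙ M := by
      ext x y
      simp [pow_succ]
    rw [e]
    exact ih.hadamard h

theorem psd_geom {M : Matrix X X ℂ} (h : M.PosSemidef) (h1 : ∀ x y, ‖M x y‖ < 1) :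
    (of fun x y => (1 - M x y)⁻¹).PosSemidef := by
  refine psd_lim (M := fun n x y => ∑ i ∈ Finset.range n, M x y ^ i) (fun n => ?_)
    fun x y => (hasSum_geometric_of_norm_lt_one (h1 x y)).tendsto_sum_nat
  convert posSemidef_sum (Finset.range n) fun i _ => psd_pow h i using 1
  ext x y
  simp [Matrix.sum_apply]

theorem psd_dyad (v : X → ℂ) : (of fun x y => v x * conj (v y)).PosSemidef := by
  convert dyad_psd fun x => conj (v x) using 1
  ext x y
  simp [dyad]

theorem psd_real {M : Matrix X X ℂ} (h : M.PosSemidef) (c : ℝ) (hc : 0 ≤ c) :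
    ((c : ℂ) • M).PosSemidef := h.smul (Complex.zero_le_real.2 hc)

end Pool.Agent.H.MP_72b8ed_an
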